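import Mathlib
import Pool.Agent.N167.DY.Stm

/-! DY/4: bootstrap to rapid decrease. -/

namespace Pool.Agent.N136.DY

open Set Filter Topology Pool.Agent.N167.DY

theorem geom_lemma {B h : ℕ → ℝ} {ϑ ρ C : ℝ} {N : ℕ} (hρ : 0 < ρ) (hϑ0 : 0 ≤ ϑ) (hϑ : ϑ < ρ)
    (hB : ∀ n, N ≤ n → B (n + 1) ≤ h (n + 1) + ϑ * B n)
    (hh : ∀ n, h n ≤ C * ρ ^ n) : ∃ D : ℝ, 0 ≤ D ∧ ∀ n, N ≤ n → B n ≤ D * ρ ^ n := by
  set D : ℝ := max 0 (max (B N / ρ ^ N) (C * ρ / (ρ - ϑ))) with hD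
  have hD0 : 0 ≤ D := le_max_left _ _
  have hD1 : B N / ρ ^ N ≤ D := (le_max_left _ _).trans (le_max_right _ _)
  have hD2 : C * ρ / (ρ - ϑ) ≤ D := (le_max_right _ _).trans (le_max_right _ _)
  refine ⟨D, hD0, ?_⟩
  intro n hn
  induction n, hn using Nat.le_induction with
  | base => exact (div_le_iff₀ (by positivity)).1 hD1
  | succ n hn ih =>
    have h1 : C * ρ ≤ D * (ρ - ϑ) := (div_le_iff₀ (by linarith)).1 hD2
    have h2 : ϑ * B n ≤ ϑ * (D * ρ ^ n) := mul_le_mul_of_nonneg_left ih hϑ0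
    have h3 : 0 ≤ ρ ^ n := by positivity
    calc B (n + 1) ≤ h (n + 1) + ϑ * B n := hB n hn
      _ ≤ C * ρ ^ (n + 1) + ϑ * (D * ρ ^ n) := add_le_add (hh _) h2
      _ = (C * ρ + ϑ * D) * ρ ^ n := by ring
      _ ≤ (D * ρ) * ρ ^ n := by
          apply mul_le_mul_of_nonneg_right _ h3
          linarith
      _ = D * ρ ^ (n + 1) := by ring

theorem kk_pos (β : ℝ) (n : ℕ) : 0 < kk β n := by
  unfold kk; positivity

theorem kk_succ (β : ℝ) (n : ℕ) : kk β (n + 1) = (2 : ℝ) ^ β * kk β n := by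
  unfold kk
  rw [← Real.rpow_add (by norm_num)]
  congr 1
  push_cast; ring

theorem four_pow (n : ℕ) : (4 : ℝ) ^ n = (2 : ℝ) ^ (2 * (n : ℝ)) := by
  rw [Real.rpow_mul (by norm_num), Real.rpow_natCast]
  norm_num

theorem rapid_mul {a : ℕ → ℝ} (ha : Rapid a) (γ K : ℝ) (hK : 0 ≤ K) :
    Rapid (fun n => K * ((2 : ℝ) ^ (γ * (n : ℝ)) * a n)) := by
  intro s
  obtain ⟨C, hC⟩ := ha (s + γ)
  refine ⟨K * C, fun n => ?_⟩
  have h := hC n
  calc (2 : ℝ) ^ (s * (n : ℝ)) * (K * ((2 : ℝ) ^ (γ * (n : ℝ)) * a n))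
      = K * (((2 : ℝ) ^ (s * (n : ℝ)) * (2 : ℝ) ^ (γ * (n : ℝ))) * a n) := by ring
    _ = K * ((2 : ℝ) ^ ((s + γ) * (n : ℝ)) * a n) := by
        rw [← Real.rpow_add (by norm_num)]; congr 3; ring
    _ ≤ K * C := mul_le_mul_of_nonneg_left h hK

theorem rapid_add {a b : ℕ → ℝ} (ha : Rapid a) (hb : Rapid b) : Rapid (fun n => a n + b n) := by
  intro s
  obtain ⟨C, hC⟩ := ha s
  obtain ⟨C', hC'⟩ := hb s
  refine ⟨C + C', fun n => ?_⟩
  have := hC n
  have := hC' n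
  rw [mul_add]
  linarith

theorem rapid_geom {a : ℕ → ℝ} (ha : Rapid a) (s : ℝ) :
    ∃ C : ℝ, ∀ n, a n ≤ C * ((2 : ℝ) ^ (-s)) ^ n := by
  obtain ⟨C, hC⟩ := ha s
  refine ⟨C, fun n => ?_⟩
  have h := hC n
  have e : ((2 : ℝ) ^ (-s)) ^ n = ((2 : ℝ) ^ (s * (n : ℝ)))⁻¹ := by
    rw [← Real.rpow_natCast, ← Real.rpow_mul (by norm_num), ← Real.rpow_neg (by norm_num)]
    congr 1; ring
  rw [e, ← div_eq_mul_inv, le_div_iff₀ (by positivity), mul_comm]
  exact h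

theorem rapid_of_eventually {a : ℕ → ℝ}
    (h : ∀ s : ℝ, ∃ D : ℝ, ∃ N : ℕ, ∀ n, N ≤ n → a n ≤ D * ((2 : ℝ) ^ (-s)) ^ n) : Rapid a := by
  intro s
  obtain ⟨D, N, hD⟩ := h s
  set S := ∑ n ∈ Finset.range N, |(2 : ℝ) ^ (s * (n : ℝ)) * a n| with hS
  have hS0 : 0 ≤ S := Finset.sum_nonneg fun n _ => abs_nonneg _
  refine ⟨|D| + S, fun n => ?_⟩
  by_cases hn : N ≤ n
  · have h1 := hD n hn
    have e : ((2 : ℝ) ^ (-s)) ^ n = ((2 : ℝ) ^ (s * (n : ℝ)))⁻¹ := by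
      rw [← Real.rpow_natCast, ← Real.rpow_mul (by norm_num), ← Real.rpow_neg (by norm_num)]
      congr 1; ring
    rw [e, ← div_eq_mul_inv, le_div_iff₀ (by positivity), mul_comm] at h1
    have := le_abs_self D
    linarith
  · have h1 : |(2 : ℝ) ^ (s * (n : ℝ)) * a n| ≤ S :=
      Finset.single_le_sum (f := fun n : ℕ => |(2 : ℝ) ^ (s * (n : ℝ)) * a n|)
        (fun n _ => abs_nonneg _) (Finset.mem_range.2 (by omega))
    have := le_abs_self ((2 : ℝ) ^ (s * (n : ℝ)) * a n)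
    have := abs_nonneg D
    linarith

/-- DY/4 -/
theorem boot : S_boot := by
  intro β ν θ a A x F N₀ hν hθ ha haA hx hF hxr hFr hrec hthr
  set c : ℝ := (2 : ℝ) ^ (β - 2) with hc
  have hc0 : 0 < c := by positivity
  have hcβ : (2 : ℝ) ^ β = 4 * c := by
    rw [hc, Real.rpow_sub (by norm_num)]
    norm_num
    ring
  set B : ℕ → ℝ := fun n => c * kk β n * a n / (ν * 4 ^ (n + 1)) with hB
  set h : ℕ → ℝ := fun n => c * kk β n * x n / (ν * 4 ^ (n + 1))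
    + c * kk β n * F n / ((ν * 4 ^ (n + 1)) * (ν * 4 ^ n)) with hh
  have hB0 : ∀ n, 0 ≤ B n := fun n => by
    have := kk_pos β n
    have := ha n
    simp only [hB]; positivity
  -- the recursion
  have hrecB : ∀ n, B (n + 1) ≤ h (n + 1) + B n ^ 2 := by
    intro n
    have hk := kk_pos β n
    have hk1 := kk_pos β (n + 1)
    have hD : 0 < ν * 4 ^ (n + 1) := by positivity
    have hD1 : 0 < ν * 4 ^ (n + 1 + 1) := by positivity
    have h1 : a (n + 1) ≤ x (n + 1) + (F (n + 1) + kk β n * a n ^ 2) / (ν * 4 ^ (n + 1)) := by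
      refine (hrec n).trans (max_le ?_ ?_)
      · have : 0 ≤ (F (n + 1) + kk β n * a n ^ 2) / (ν * 4 ^ (n + 1)) := by
          have := hF (n + 1); positivity
        linarith
      · have := hx (n + 1); linarith
    have h2 : B (n + 1) ≤ c * kk β (n + 1) *
        (x (n + 1) + (F (n + 1) + kk β n * a n ^ 2) / (ν * 4 ^ (n + 1)))
        / (ν * 4 ^ (n + 1 + 1)) := by
      simp only [hB]
      gcongr
    refine h2.trans (le_of_eq ?_)
    simp only [hB, hh]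
    rw [kk_succ, hcβ]
    field_simp
    ring
  have hhr : Rapid h := by
    have h1 := rapid_mul hxr (β - 2) (c / (4 * ν)) (by positivity)
    have h2 := rapid_mul hFr (β - 4) (c / (4 * ν ^ 2)) (by positivity)
    have h3 := rapid_add h1 h2
    have e : h = fun n : ℕ => c / (4 * ν) * ((2 : ℝ) ^ ((β - 2) * (n : ℝ)) * x n)
        + c / (4 * ν ^ 2) * ((2 : ℝ) ^ ((β - 4) * (n : ℝ)) * F n) := by
      funext n
      simp only [hh]
      have e1 : (2 : ℝ) ^ ((β - 2) * (n : ℝ)) = kk β n / 4 ^ n := by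
        unfold kk
        rw [four_pow, ← Real.rpow_sub (by norm_num)]
        congr 1; ring
      have e2 : (2 : ℝ) ^ ((β - 4) * (n : ℝ)) = kk β n / (4 ^ n * 4 ^ n) := by
        unfold kk
        rw [four_pow, ← Real.rpow_add (by norm_num), ← Real.rpow_sub (by norm_num)]
        congr 1; ring
      rw [e1, e2]
      field_simp
      ring
    rw [e]; exact h3
  -- B ≤ θ
  have hBθ : ∀ n, N₀ ≤ n → B n ≤ θ := by
    intro n hn
    have hk := kk_pos β n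
    simp only [hB]
    rw [div_le_iff₀ (by positivity)]
    refine le_trans ?_ (hthr n hn)
    have := haA n
    gcongr
  set θ' : ℝ := max θ 0 with hθ'
  have hθ'0 : 0 ≤ θ' := le_max_right _ _
  have hθ'1 : θ' < 1 := max_lt hθ (by norm_num)
  -- step 1
  set ρ₁ : ℝ := (1 + θ') / 2 with hρ₁
  obtain ⟨C₁, hC₁⟩ := rapid_geom hhr 1
  have hstep1 : ∃ D : ℝ, 0 ≤ D ∧ ∀ n, N₀ ≤ n → B n ≤ D * ρ₁ ^ n := by
    refine geom_lemma (h := h) (ϑ := θ') (C := max C₁ 0) (by positivity) hθ'0 (by linarith) ?_ ?_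
    · intro n hn
      have h1 := hrecB n
      have h2 : B n ^ 2 ≤ θ' * B n := by
        rw [sq]
        exact mul_le_mul_of_nonneg_right ((hBθ n hn).trans (le_max_left _ _)) (hB0 n)
      linarith
    · intro n
      refine (hC₁ n).trans ?_
      have h1 : (2 : ℝ) ^ (-1 : ℝ) ≤ ρ₁ := by
        rw [Real.rpow_neg_one]; rw [hρ₁]; linarith
      have h2 : ((2 : ℝ) ^ (-1 : ℝ)) ^ n ≤ ρ₁ ^ n := pow_le_pow_left₀ (by positivity) h1 n
      calc C₁ * ((2 : ℝ) ^ (-1 : ℝ)) ^ n ≤ max C₁ 0 * ((2 : ℝ) ^ (-1 : ℝ)) ^ n :=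
            mul_le_mul_of_nonneg_right (le_max_left _ _) (by positivity)
        _ ≤ max C₁ 0 * ρ₁ ^ n := mul_le_mul_of_nonneg_left h2 (le_max_right _ _)
  obtain ⟨D₁, hD₁0, hD₁⟩ := hstep1
  have hρ₁1 : ρ₁ < 1 := by rw [hρ₁]; linarith
  have hρ₁0 : 0 ≤ ρ₁ := by rw [hρ₁]; linarith
  have hB_lim : Tendsto B atTop (𝓝 0) := by
    have h1 : Tendsto (fun n => D₁ * ρ₁ ^ n) atTop (𝓝 0) := by
      simpa using (tendsto_pow_atTop_nhds_zero_of_lt_one hρ₁0 hρ₁1).const_mul D₁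
    refine tendsto_of_tendsto_of_tendsto_of_le_of_le' tendsto_const_nhds h1
      (Eventually.of_forall hB0) ?_
    filter_upwards [eventually_ge_atTop N₀] with n hn using hD₁ n hn
  -- step 2
  have hBr : Rapid B := by
    apply rapid_of_eventually
    intro s
    set ρ : ℝ := (2 : ℝ) ^ (-s) with hρ
    have hρ0 : 0 < ρ := by positivity
    obtain ⟨C, hC⟩ := rapid_geom hhr s
    have hev : ∀ᶠ n in atTop, B n < ρ / 2 := hB_lim.eventually_lt_const (by positivity)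
    obtain ⟨N₁, hN₁⟩ := eventually_atTop.1 hev
    obtain ⟨D, -, hD⟩ := geom_lemma (B := B) (h := h) (ϑ := ρ / 2) (ρ := ρ) (C := C) (N := N₁)
      hρ0 (by positivity) (by linarith) (fun n hn => by
        have h1 := hrecB n
        have h2 : B n ^ 2 ≤ ρ / 2 * B n := by
          rw [sq]
          exact mul_le_mul_of_nonneg_right (hN₁ n hn).le (hB0 n)
        linarith) hC
    exact ⟨D, N₁, hD⟩
  -- back to a
  have e : a = fun n : ℕ => (4 * ν / c) * ((2 : ℝ) ^ ((2 - β) * (n : ℝ)) * B n) := by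
    funext n
    have hk := kk_pos β n
    have e1 : (2 : ℝ) ^ ((2 - β) * (n : ℝ)) = 4 ^ n / kk β n := by
      unfold kk
      rw [four_pow, ← Real.rpow_sub (by norm_num)]
      congr 1; ring
    rw [e1]
    simp only [hB]
    field_simp
    ring
  rw [e]
  exact rapid_mul hBr (2 - β) (4 * ν / c) (by positivity)

end Pool.Agent.N136.DY
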